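import Mathlib

set_option autoImplicit false

/-!
# Long sequences of functions increasing modulo finite sets

Two families of functions on the natural numbers which are strictly increasing modulo finite sets
along a well-ordered index set: one of length `ω_1` with values in the natural numbers, and one of
length the successor of `κ = ℵ_ω` with values in a set of size `κ`.
-/

namespace Pool.Agent.K7.H98.PO

open Set Cardinal

/-- Recursion along a well-order: if every initial family has an upper bound, there is a long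
increasing family. -/
theorem exists_family {J K : Type} [LinearOrder J] [WellFoundedLT J] (lt : K → K → Prop)
    (P : (ℕ → K) → Prop)
    (step : ∀ (j : J) (g : Iio j → ℕ → K), (∀ i, P (g i)) →
      ∃ h, P h ∧ ∀ i, ∃ m, ∀ n ≥ m, lt (g i n) (h n)) :
    ∃ y : J → ℕ → K, (∀ j, P (y j)) ∧ ∀ i j, i < j → ∃ m, ∀ n ≥ m, lt (y i n) (y j n) := by
  classical
  let F : (j : J) → ((i : J) → i < j → {h : ℕ → K // P h}) → {h : ℕ → K // P h} := fun j ih =>
    ⟨Classical.choose (step j (fun i => (ih i.1 i.2).1) (fun i => (ih i.1 i.2).2)),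
      (Classical.choose_spec (step j (fun i => (ih i.1 i.2).1) (fun i => (ih i.1 i.2).2))).1⟩
  let y : J → {h : ℕ → K // P h} := WellFounded.fix (wellFounded_lt (α := J)) F
  have hy : ∀ j, y j = F j (fun i _ => y i) := fun j => WellFounded.fix_eq _ F j
  refine ⟨fun j => (y j).1, fun j => (y j).2, fun i j hij => ?_⟩
  have h1 := (Classical.choose_spec (step j (fun i => (y i.1).1) (fun i => (y i.1).2))).2 ⟨i, hij⟩
  have h2 : (y j).1 = Classical.choose (step j (fun i => (y i.1).1) (fun i => (y i.1).2)) := by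
    rw [hy j]
  rw [← h2] at h1
  exact h1

/-- small families in a regular cardinal are bounded -/
theorem bound {c : Cardinal.{0}} (hc : c.IsRegular) {ι : Type} (hι : #ι < c)
    (f : ι → c.ord.ToType) : ∃ b, ∀ i, f i < b := by
  have h : ¬ IsCofinal (range f) := by
    intro h
    have h1 := Order.cof_le h
    rw [Ordinal.cof_toType, hc.cof_ord] at h1
    exact (h1.trans mk_range_le).not_gt hι
  obtain ⟨b, hb⟩ := not_isCofinal_iff.1 h
  exact ⟨b, fun i => hb _ ⟨i, rfl⟩⟩

/-- the index set of the first family -/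
abbrev I1 : Type := (ℵ₁).ord.ToType

theorem mk_I1 : #I1 = ℵ₁ := by simp

theorem countable_Iio (i : I1) : Countable (Iio i) := by
  have h : #(Iio i) < ℵ₁ := by simpa using mk_Iio_lt i
  rw [← Cardinal.mk_le_aleph0_iff]
  rw [← Order.lt_succ_iff]
  simpa using h

theorem exists_x : ∃ x : I1 → ℕ → ℕ, ∀ i j, i < j → ∃ m, ∀ n ≥ m, x i n < x j n := by
  obtain ⟨x, -, hx⟩ := exists_family (J := I1) (K := ℕ) (· < ·) (fun _ => True) (by
    intro j g _
    have := countable_Iio j
    rcases isEmpty_or_nonempty (Iio j) with he | hne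
    · exact ⟨fun _ => 0, trivial, fun i => he.elim i⟩
    · obtain ⟨e, he⟩ := exists_surjective_nat (Iio j)
      refine ⟨fun n => (Finset.range (n + 1)).sup (fun k => g (e k) n) + 1, trivial, fun i => ?_⟩
      obtain ⟨k, rfl⟩ := he i
      refine ⟨k, fun n hn => ?_⟩
      have : g (e k) n ≤ (Finset.range (n + 1)).sup (fun k => g (e k) n) :=
        Finset.le_sup (f := fun k => g (e k) n) (Finset.mem_range.2 (by omega))
      exact Nat.lt_succ_of_le this)
  exact ⟨x, hx⟩

/-- the blocks of the alphabet of the second family -/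
abbrev Blk (n : ℕ) : Type := (ℵ_ (n : Ordinal)).ord.ToType

theorem mk_Blk (n : ℕ) : #(Blk n) = ℵ_ (n : Ordinal) := by simp

theorem nonempty_Blk (n : ℕ) : Nonempty (Blk n) := by
  rw [← Cardinal.mk_ne_zero_iff, mk_Blk]
  exact (aleph_pos _).ne'

/-- the alphabet of the second family -/
abbrev KK : Type := Σ n : ℕ, Blk n

/-- the order on the blocks -/
def ltK (a b : KK) : Prop := ∃ (n : ℕ) (u v : Blk n), a = ⟨n, u⟩ ∧ b = ⟨n, v⟩ ∧ u < v

theorem ltK_irrefl (a : KK) : ¬ ltK a a := by
  rintro ⟨n, u, v, h1, h2, h3⟩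
  rw [h1] at h2
  have : u = v := by simpa using h2
  rw [this] at h3
  exact lt_irrefl _ h3

theorem ltK_trans {a b c : KK} (h1 : ltK a b) (h2 : ltK b c) : ltK a c := by
  obtain ⟨n, u, v, rfl, rfl, h⟩ := h1
  obtain ⟨m, u', v', h3, rfl, h'⟩ := h2
  have hnm : n = m := by
    have := congrArg Sigma.fst h3
    exact this
  subst hnm
  have : v = u' := by simpa using h3
  subst this
  exact ⟨n, u, v', rfl, rfl, h.trans h'⟩

/-- the index set of the second family -/
abbrev J1 : Type := (Order.succ #KK).ord.ToType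

theorem mk_J1 : #J1 = Order.succ #KK := by simp

theorem mk_Iio_J1 (j : J1) : #(Iio j) ≤ #KK := by
  have h : #(Iio j) < Order.succ #KK := by simpa using mk_Iio_lt j
  exact Order.lt_succ_iff.1 h

theorem exists_y : ∃ y : J1 → ℕ → KK, ∀ i j, i < j → ∃ m, ∀ n ≥ m, ltK (y i n) (y j n) := by
  obtain ⟨y, -, hy⟩ := exists_family (J := J1) (K := KK) ltK (fun f => ∀ n, (f n).1 = n + 1) (by
    intro j g hg
    obtain ⟨φ⟩ : Nonempty (Iio j ↪ KK) := Cardinal.le_def _ _ |>.1 (mk_Iio_J1 j)
    -- the values as elements of the blocks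
    have hval : ∀ i n, ∃ u : Blk (n + 1), g i n = ⟨n + 1, u⟩ := by
      intro i n
      have h := hg i n
      rcases hh : g i n with ⟨a, u⟩
      rw [hh] at h
      have h' : a = n + 1 := h
      subst h'
      exact ⟨u, rfl⟩
    choose u hu using hval
    have hb : ∀ n k : ℕ, k ≤ n → ∃ b : Blk (n + 1), ∀ i, (φ i).1 = k → u i n < b := by
      intro n k hk
      have hreg : (ℵ_ ((n + 1 : ℕ) : Ordinal)).IsRegular := by
        have := isRegular_aleph_add_one (n : Ordinal)
        simpa using this
      have hcard : #{i : Iio j // (φ i).1 = k} < ℵ_ ((n + 1 : ℕ) : Ordinal) := by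
        have hinj : Function.Injective (fun i : {i : Iio j // (φ i).1 = k} =>
            (i.2 ▸ (φ i.1).2 : Blk k)) := by
          intro a b hab
          apply Subtype.ext
          apply φ.injective
          have ha := a.2
          have hb := b.2
          refine Sigma.ext (ha.trans hb.symm) ?_
          have h1 : HEq (a.2 ▸ (φ a.1).2 : Blk k) (φ a.1).2 := by
            exact eqRec_heq _ _
          have h2 : HEq (b.2 ▸ (φ b.1).2 : Blk k) (φ b.1).2 := by
            exact eqRec_heq _ _
          exact h1.symm.trans ((heq_of_eq hab).trans h2)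
        have h1 : #{i : Iio j // (φ i).1 = k} ≤ #(Blk k) := mk_le_of_injective hinj
        rw [mk_Blk] at h1
        refine h1.trans_lt (aleph_lt_aleph.2 ?_)
        exact_mod_cast Nat.lt_succ_of_le hk
      obtain ⟨b, hb⟩ := bound hreg hcard (fun i => u i.1 n)
      exact ⟨b, fun i hi => hb ⟨i, hi⟩⟩
    have hb' : ∀ n : ℕ, ∃ b : Blk (n + 1), ∀ i, (φ i).1 ≤ n → u i n < b := by
      intro n
      have := nonempty_Blk (n + 1)
      choose! b hb using fun k => hb n k
      obtain ⟨B, hB⟩ := (Set.finite_range (fun k : Fin (n + 1) => b k)).bddAbove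
      refine ⟨B, fun i hi => ?_⟩
      have h1 := hb (φ i).1 hi i rfl
      exact h1.trans_le (hB ⟨⟨(φ i).1, by omega⟩, rfl⟩)
    choose b hb using hb'
    refine ⟨fun n => ⟨n + 1, b n⟩, fun n => rfl, fun i => ⟨(φ i).1, fun n hn => ?_⟩⟩
    exact ⟨n + 1, u i n, b n, hu i n, rfl, hb n i hn⟩)
  exact ⟨y, hy⟩

theorem aleph0_le_KK : ℵ₀ ≤ #KK := by
  have h : #ℕ ≤ #KK := by
    exact mk_le_of_injective (f := fun n : ℕ => (⟨n, (nonempty_Blk n).some⟩ : KK)) (fun a b h => by
      exact congrArg Sigma.fst h)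
  simpa using h

theorem aleph1_le_KK : ℵ₁ ≤ #KK := by
  have h : #(Blk 1) ≤ #KK :=
    mk_le_of_injective (f := fun u : Blk 1 => (⟨1, u⟩ : KK)) (fun a b h => by simpa using h)
  rw [mk_Blk] at h
  simpa using h

end Pool.Agent.K7.H98.PO
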