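import Pool.Agent.K7.H98.PO.Map
import Pool.Agent.K7.H98.PO.Seq

set_option autoImplicit false

/-!
# The example
-/

namespace Pool.Agent.K7.H98.PO

open Set Topology Cardinal

universe u

/-- the alphabet -/
abbrev AA : Type := ℕ × KK

/-- the first family -/
noncomputable def xx : I1 → ℕ → ℕ := Classical.choose exists_x

lemma xx_spec : ∀ i j, i < j → ∃ m, ∀ n ≥ m, xx i n < xx j n := Classical.choose_spec exists_x

/-- the second family -/
noncomputable def yy : J1 → ℕ → KK := Classical.choose exists_y

lemma yy_spec : ∀ i j, i < j → ∃ m, ∀ n ≥ m, ltK (yy i n) (yy j n) :=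
  Classical.choose_spec exists_y

lemma xx_lt {i j : I1} (h : ∃ m, ∀ n ≥ m, xx i n < xx j n) : i < j := by
  by_contra hc
  obtain ⟨m, hm⟩ := h
  rcases lt_or_eq_of_le (not_lt.1 hc) with h1 | h1
  · obtain ⟨m', hm'⟩ := xx_spec _ _ h1
    exact lt_asymm (hm _ (le_max_left m m')) (hm' _ (le_max_right m m'))
  · rw [h1] at hm
    exact lt_irrefl _ (hm m le_rfl)

lemma yy_lt {i j : J1} (h : ∃ m, ∀ n ≥ m, ltK (yy i n) (yy j n)) : i < j := by
  by_contra hc
  obtain ⟨m, hm⟩ := h
  rcases lt_or_eq_of_le (not_lt.1 hc) with h1 | h1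
  · obtain ⟨m', hm'⟩ := yy_spec _ _ h1
    exact ltK_irrefl _ (ltK_trans (hm _ (le_max_left m m')) (hm' _ (le_max_right m m')))
  · rw [h1] at hm
    exact ltK_irrefl _ (hm m le_rfl)

lemma xx_inj : Function.Injective xx := by
  intro i j h
  rcases lt_trichotomy i j with h1 | h1 | h1
  · obtain ⟨m, hm⟩ := xx_spec _ _ h1
    have := hm m le_rfl
    rw [h] at this
    exact absurd this (lt_irrefl _)
  · exact h1
  · obtain ⟨m, hm⟩ := xx_spec _ _ h1
    have := hm m le_rfl
    rw [h] at this
    exact absurd this (lt_irrefl _)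

lemma yy_inj : Function.Injective yy := by
  intro i j h
  rcases lt_trichotomy i j with h1 | h1 | h1
  · obtain ⟨m, hm⟩ := yy_spec _ _ h1
    have := hm m le_rfl
    rw [h] at this
    exact absurd this (ltK_irrefl _)
  · exact h1
  · obtain ⟨m, hm⟩ := yy_spec _ _ h1
    have := hm m le_rfl
    rw [h] at this
    exact absurd this (ltK_irrefl _)

/-- the first predicate -/
def PP (z : ℕ → AA) : Prop := ∃ i, xx i = fun n => (z n).1

/-- the second predicate -/
def RR (z : ℕ → AA) : Prop := ∃ j, yy j = fun n => (z n).2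

theorem nonempty_I1 : Nonempty I1 := by
  rw [← Cardinal.mk_ne_zero_iff, mk_I1]
  exact (aleph_pos 1).ne'

theorem nonempty_J1 : Nonempty J1 := by
  rw [← Cardinal.mk_ne_zero_iff, mk_J1]
  exact (Order.bot_lt_succ _).ne'

/-- the index of the first coordinate -/
noncomputable def ri (z : ℕ → AA) : I1 := by
  classical
  exact if h : PP z then h.choose else nonempty_I1.some

/-- the index of the second coordinate -/
noncomputable def rj (z : ℕ → AA) : J1 := by
  classical
  exact if h : RR z then h.choose else nonempty_J1.some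

lemma xx_ri {z : ℕ → AA} (h : PP z) : xx (ri z) = fun n => (z n).1 := by
  have : ri z = h.choose := dif_pos h
  rw [this]
  exact h.choose_spec

lemma yy_rj {z : ℕ → AA} (h : RR z) : yy (rj z) = fun n => (z n).2 := by
  have : rj z = h.choose := dif_pos h
  rw [this]
  exact h.choose_spec

/-- the relations -/
def CR (m : ℕ) : Set ((ℕ → AA) × (ℕ → AA)) :=
  {p | (∀ n ≥ m, (p.1 n).1 < (p.2 n).1) ∨
    ((∀ n, (p.1 n).1 = (p.2 n).1) ∧ ∀ n ≥ m, ltK (p.1 n).2 (p.2 n).2)}

theorem thin {F : Set (ℕ → AA)} (hF : Clo F) (h : ∀ z ∈ F, PP z ∧ RR z) : Thin F := by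
  refine thin_of_rank hF (W := I1 ×ₗ J1) (fun z => toLex (ri z, rj z)) ?_ CR ?_ ?_ ?_
  · intro a ha b hb hab
    have h0 : (ri a, rj a) = (ri b, rj b) := toLex.injective hab
    have h1 : ri a = ri b := congrArg Prod.fst h0
    have h2 : rj a = rj b := congrArg Prod.snd h0
    have h3 := xx_ri (h a ha).1
    have h4 := yy_rj (h a ha).2
    rw [h1, xx_ri (h b hb).1] at h3
    rw [h2, yy_rj (h b hb).2] at h4
    funext n
    exact Prod.ext (congrFun h3 n).symm (congrFun h4 n).symm
  · intro _ _ m
    have hcl : ∀ (n : ℕ) (Q : AA → AA → Prop),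
        IsClosed {p : (ℕ → AA) × (ℕ → AA) | Q (p.1 n) (p.2 n)} := by
      intro n Q
      have h1 : Continuous fun p : (ℕ → AA) × (ℕ → AA) => (p.1 n, p.2 n) := by fun_prop
      exact (isClosed_discrete {p : AA × AA | Q p.1 p.2}).preimage h1
    have e1 : {p : (ℕ → AA) × (ℕ → AA) | ∀ n ≥ m, (p.1 n).1 < (p.2 n).1} =
        ⋂ n, ⋂ (_ : n ≥ m), {p | (p.1 n).1 < (p.2 n).1} := by
      ext p
      simp
    have e2 : {p : (ℕ → AA) × (ℕ → AA) | ∀ n, (p.1 n).1 = (p.2 n).1} =
        ⋂ n, {p | (p.1 n).1 = (p.2 n).1} := by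
      ext p
      simp
    have e3 : {p : (ℕ → AA) × (ℕ → AA) | ∀ n ≥ m, ltK (p.1 n).2 (p.2 n).2} =
        ⋂ n, ⋂ (_ : n ≥ m), {p | ltK (p.1 n).2 (p.2 n).2} := by
      ext p
      simp
    have c1 : IsClosed {p : (ℕ → AA) × (ℕ → AA) | ∀ n ≥ m, (p.1 n).1 < (p.2 n).1} := by
      rw [e1]
      exact isClosed_iInter fun n => isClosed_iInter fun _ => hcl n fun a b => a.1 < b.1
    have c2 : IsClosed {p : (ℕ → AA) × (ℕ → AA) | ∀ n, (p.1 n).1 = (p.2 n).1} := by
      rw [e2]
      exact isClosed_iInter fun n => hcl n fun a b => a.1 = b.1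
    have c3 : IsClosed {p : (ℕ → AA) × (ℕ → AA) | ∀ n ≥ m, ltK (p.1 n).2 (p.2 n).2} := by
      rw [e3]
      exact isClosed_iInter fun n => isClosed_iInter fun _ => hcl n fun a b => ltK a.2 b.2
    exact c1.union (c2.inter c3)
  · intro a ha b hb hab
    have ha1 := xx_ri (h a ha).1
    have hb1 := xx_ri (h b hb).1
    have ha2 := yy_rj (h a ha).2
    have hb2 := yy_rj (h b hb).2
    rcases (Prod.Lex.toLex_lt_toLex.1 hab) with h1 | ⟨h1, h2⟩
    · obtain ⟨m, hm⟩ := xx_spec _ _ h1
      rw [ha1, hb1] at hm
      exact ⟨m, Or.inl hm⟩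
    · obtain ⟨m, hm⟩ := yy_spec _ _ h2
      rw [ha2, hb2] at hm
      refine ⟨m, Or.inr ⟨fun n => ?_, hm⟩⟩
      have h3 : ri a = ri b := h1
      rw [h3, hb1] at ha1
      exact (congrFun ha1 n).symm
  · intro a ha b hb m hab
    have ha1 := xx_ri (h a ha).1
    have hb1 := xx_ri (h b hb).1
    have ha2 := yy_rj (h a ha).2
    have hb2 := yy_rj (h b hb).2
    apply Prod.Lex.toLex_lt_toLex.2
    rcases hab with hab | ⟨hab1, hab2⟩
    · left
      apply xx_lt
      rw [ha1, hb1]
      exact ⟨m, hab⟩
    · right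
      refine ⟨?_, ?_⟩
      · apply xx_inj
        rw [ha1, hb1]
        funext n
        exact hab1 n
      · apply yy_lt
        rw [ha2, hb2]
        exact ⟨m, hab2⟩

/-- The space. -/
abbrev YY : Type := Sp PP RR

theorem metacompact_YY : Metacompact YY := metacompact fun _ hF h => thin hF h

/-- the points of the grid -/
noncomputable def zz (i : I1) (j : J1) : ℕ → AA := fun n => (xx i n, yy j n)

lemma PP_zz (i : I1) (j : J1) : PP (zz i j) := ⟨i, rfl⟩

lemma RR_zz (i : I1) (j : J1) : RR (zz i j) := ⟨j, rfl⟩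

lemma isOpen_compl_A : IsOpen ({x | ∀ z, x = Sp.e z → PP z} : Set YY) := by
  have : ({x | ∀ z, x = Sp.e z → PP z} : Set YY) = NB [] := by
    ext x
    constructor
    · intro h
      rcases x with s | z
      · exact List.nil_suffix
      · exact ⟨rfl, h z rfl⟩
    · rintro h z rfl
      exact h.2
  rw [this]
  exact isOpen_NB []

lemma isOpen_compl_B : IsOpen ({x | ∀ z, x = Sp.e z → (¬ PP z ∨ RR z)} : Set YY) := by
  have : ({x | ∀ z, x = Sp.e z → (¬ PP z ∨ RR z)} : Set YY) = NA [] := by
    ext x
    constructor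
    · intro h
      rcases x with s | z
      · exact List.nil_suffix
      · exact ⟨rfl, h z rfl⟩
    · rintro h z rfl
      exact h.2
  rw [this]
  exact isOpen_NA []

theorem mk_AA : #AA = #KK := by
  have h := aleph0_le_KK
  rw [mk_prod]
  simp only [lift_id, mk_nat]
  exact aleph0_mul_eq h

theorem no_map (X : Type u) [TopologicalSpace X] [T2Space X] [ParacompactSpace X] (f : X → YY)
    (hf : Continuous f) (hL : ∀ y, IsLindelof (f ⁻¹' {y})) (hpo : PseudoOpen f) : False := by
  have hKK := aleph0_le_KK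
  -- the separation
  have hAc : IsClosed (f ⁻¹' ({x | ∀ z, x = Sp.e z → PP z} : Set YY)ᶜ) :=
    isOpen_compl_A.isClosed_compl.preimage hf
  have hBc : IsClosed (f ⁻¹' ({x | ∀ z, x = Sp.e z → (¬ PP z ∨ RR z)} : Set YY)ᶜ) :=
    isOpen_compl_B.isClosed_compl.preimage hf
  have hdisj : Disjoint (f ⁻¹' ({x | ∀ z, x = Sp.e z → PP z} : Set YY)ᶜ)
      (f ⁻¹' ({x | ∀ z, x = Sp.e z → (¬ PP z ∨ RR z)} : Set YY)ᶜ) := by
    rw [Set.disjoint_left]
    intro x h1 h2
    have h1' : ¬ ∀ z, f x = Sp.e z → PP z := h1
    have h2' : ¬ ∀ z, f x = Sp.e z → (¬ PP z ∨ RR z) := h2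
    push Not at h1' h2'
    obtain ⟨z, hz, hz'⟩ := h1'
    obtain ⟨w, hw, hw1, -⟩ := h2'
    rw [hz] at hw
    have : z = w := Sp.e.inj hw
    rw [this] at hz'
    exact hz' hw1
  obtain ⟨U, V, hU, hV, hAU, hBV, hUV⟩ := normal_separation hAc hBc hdisj
  have hD : ∀ x, x ∈ Vᶜ ∨ x ∈ Uᶜ := by
    intro x
    by_cases hx : x ∈ V
    · right
      intro hxU
      exact (Set.disjoint_left.1 hUV) hxU hx
    · exact Or.inl hx
  -- the lines in the second direction
  have key1 : ∀ i : I1, #{j // Act f Vᶜ (zz i j)} ≤ #KK := by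
    intro i
    obtain ⟨k, hk⟩ := count hf hL hV.isClosed_compl
      (S := {j // Act f Vᶜ (zz i j)}) (fun j => zz i j.1) (by
        intro p hp
        rcases hfp : f p with s | z
        · refine ⟨{Sp.q s}, isOpen_q s, rfl, ?_⟩
          intro j j' hj
          exact absurd hj (by simp)
        · by_cases hP : PP z
          · by_cases hR : RR z
            · refine ⟨LL z 0, isOpen_LL hP hR 0, rfl, ?_⟩
              intro j j' hj hj'
              have h1 : zz i j.1 = z := hj
              have h2 : zz i j'.1 = z := hj'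
              apply Subtype.ext
              apply yy_inj
              funext n
              have h3 := congrFun (h1.trans h2.symm) n
              exact congrArg Prod.snd h3
            · exfalso
              apply hp
              apply hBV
              intro h
              rcases h z hfp with h | h
              · exact h hP
              · exact hR h
          · refine ⟨_, isOpen_line (fun a : AA => a.1) (xx i), ?_, ?_⟩
            · intro z' hz' h
              have h1 : z = z' := Sp.e.inj hz'
              rw [← h1] at h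
              exact hP ⟨i, h.symm⟩
            · intro j j' hj
              exact absurd rfl (hj (zz i j.1) rfl))
      (fun j => j.2)
    have h1 := mk_le_mk_mul_of_mk_preimage_le (c := ℵ₀)
      (fun j : {j // Act f Vᶜ (zz i j)} => rl (zz i j.1) (k j)) (fun q => by
        have := hk q
        exact this.le_aleph0)
    have h2 : Infinite AA := by
      rw [Cardinal.infinite_iff, mk_AA]
      exact hKK
    rw [mk_list_eq_mk, mk_AA, mul_aleph0_eq hKK] at h1
    exact h1
  -- the lines in the first direction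
  have key2 : ∀ j : J1, (∀ i, Act f Uᶜ (zz i j)) → False := by
    intro j hj
    obtain ⟨k, hk⟩ := count hf hL hU.isClosed_compl
      (S := I1) (fun i => zz i j) (by
        intro p hp
        rcases hfp : f p with s | z
        · refine ⟨{Sp.q s}, isOpen_q s, rfl, ?_⟩
          intro i i' hi
          exact absurd hi (by simp)
        · by_cases hP : PP z
          · by_cases hR : RR z
            · refine ⟨LL z 0, isOpen_LL hP hR 0, rfl, ?_⟩
              intro i i' hi hi'
              have h1 : zz i j = z := hi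
              have h2 : zz i' j = z := hi'
              apply xx_inj
              funext n
              have h3 := congrFun (h1.trans h2.symm) n
              exact congrArg Prod.fst h3
            · refine ⟨_, isOpen_line (fun a : AA => a.2) (yy j), ?_, ?_⟩
              · intro z' hz' h
                have h1 : z = z' := Sp.e.inj hz'
                rw [← h1] at h
                exact hR ⟨j, h.symm⟩
              · intro i i' hi
                exact absurd rfl (hi (zz i j) rfl)
          · exfalso
            apply hp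
            apply hAU
            intro h
            exact hP (h z hfp))
      hj
    have h1 := mk_le_mk_mul_of_mk_preimage_le (c := ℵ₀)
      (fun i : I1 => rl (xx i) (k i)) (fun q => by
        rcases (fun i : I1 => rl (xx i) (k i)) ⁻¹' {q} |>.eq_empty_or_nonempty with he | ⟨i0, hi0⟩
        · rw [he]
          simp
        · refine ((hk (rl (zz i0 j) (k i0))).mono ?_).le_aleph0
          intro i hi
          have e1 : rl (xx i) (k i) = q := hi
          have e2 : rl (xx i0) (k i0) = q := hi0
          have e3 : k i = k i0 := by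
            have := congrArg List.length (e1.trans e2.symm)
            simpa using this
          change rl (zz i j) (k i) = rl (zz i0 j) (k i0)
          rw [← e3, rl_eq_iff]
          have e4 : rl (xx i) (k i) = rl (xx i0) (k i) := by
            rw [e1, e3, e2]
          rw [rl_eq_iff] at e4
          intro n hn
          exact Prod.ext (e4 n hn) rfl)
    rw [mk_I1, mk_list_eq_mk, mk_nat, aleph0_mul_aleph0] at h1
    exact absurd h1 (not_le.2 aleph0_lt_aleph_one)
  -- the counting
  have h1 : #(⋃ i : I1, {j : J1 | Act f Vᶜ (zz i j)}) ≤ #KK := by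
    refine (mk_iUnion_le _).trans ?_
    have h2 : (⨆ i : I1, #{j : J1 | Act f Vᶜ (zz i j)}) ≤ #KK := ciSup_le' fun i => key1 i
    calc #I1 * ⨆ i : I1, #{j : J1 | Act f Vᶜ (zz i j)} ≤ #KK * #KK := by
          apply mul_le_mul' _ h2
          rw [mk_I1]
          exact aleph1_le_KK
      _ = #KK := mul_eq_self hKK
  have h2 : ∃ j : J1, j ∉ ⋃ i : I1, {j : J1 | Act f Vᶜ (zz i j)} := by
    by_contra hc
    push Not at hc
    have h3 : (⋃ i : I1, {j : J1 | Act f Vᶜ (zz i j)}) = Set.univ := eq_univ_of_forall hc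
    rw [h3, mk_univ, mk_J1] at h1
    exact absurd h1 (not_le.2 (Order.lt_succ _))
  obtain ⟨j, hj⟩ := h2
  apply key2 j
  intro i
  rcases act_or hpo hD (zz i j) with h | h
  · exact absurd (mem_iUnion.2 ⟨i, h⟩) hj
  · exact h

end Pool.Agent.K7.H98.PO
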