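import Pool.Agent.K7.H98.PO.Space

set_option autoImplicit false

/-!
# Pseudo-open maps from paracompact spaces onto the space
-/

namespace Pool.Agent.K7.H98.PO

open Set Topology Cardinal

universe u

/-- A map is pseudo-open if the image of every open neighbourhood of a fibre is a neighbourhood of
the point. -/
def PseudoOpen {X : Type u} {Y : Type} [TopologicalSpace X] [TopologicalSpace Y] (f : X → Y) :
    Prop :=
  ∀ y : Y, ∀ U : Set X, IsOpen U → f ⁻¹' {y} ⊆ U → y ∈ interior (f '' U)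

/-- Open expansions of discrete families in paracompact spaces. -/
theorem expand {X : Type u} [TopologicalSpace X] [ParacompactSpace X] {S : Type}
    (C : S → Set X) (hd : ∀ p : X, ∃ W, IsOpen W ∧ p ∈ W ∧
      ∀ s s', (W ∩ C s).Nonempty → (W ∩ C s').Nonempty → s = s') :
    ∃ v : S → Set X, (∀ s, IsOpen (v s)) ∧ (∀ s, C s ⊆ v s) ∧
      ∀ L, IsLindelof L → {s | (v s ∩ L).Nonempty}.Countable := by
  choose W hWo hpW hW using hd
  obtain ⟨t, ht1, ht2, ht3, ht4⟩ := precise_refinement W hWo (by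
    rw [eq_univ_iff_forall]
    exact fun p => mem_iUnion.2 ⟨p, hpW p⟩)
  have huniq : ∀ p s s', (t p ∩ C s).Nonempty → (t p ∩ C s').Nonempty → s = s' :=
    fun p s s' h h' => hW p s s' (h.mono (inter_subset_inter_left _ (ht4 p)))
      (h'.mono (inter_subset_inter_left _ (ht4 p)))
  refine ⟨fun s => ⋃ p ∈ {p | (t p ∩ C s).Nonempty}, t p, fun s => isOpen_biUnion fun p _ => ht1 p,
    fun s x hx => ?_, fun L hL => ?_⟩
  · have hx' : x ∈ ⋃ p, t p := by
      rw [ht2]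
      exact mem_univ x
    obtain ⟨p, hp⟩ := mem_iUnion.1 hx'
    exact mem_iUnion₂.2 ⟨p, ⟨x, hp, hx⟩, hp⟩
  · have hL1 : {p | (t p ∩ L).Nonempty}.Countable := by
      choose N hN1 hN2 using ht3
      obtain ⟨T, hT1, -, hT2⟩ := hL.elim_nhds_subcover N fun x _ => hN1 x
      apply (hT1.biUnion fun x _ => (hN2 x).countable).mono
      rintro p ⟨x, hxp, hxL⟩
      obtain ⟨y, hy, hxy⟩ := mem_iUnion₂.1 (hT2 hxL)
      exact mem_iUnion₂.2 ⟨y, hy, ⟨x, hxp, hxy⟩⟩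
    apply (hL1.biUnion (t := fun p _ => {s | (t p ∩ C s).Nonempty}) fun p _ =>
      (Set.Subsingleton.finite fun s hs s' hs' => huniq p s s' hs hs').countable).mono
    rintro s ⟨x, hx, hxL⟩
    obtain ⟨p, hp, hxp⟩ := mem_iUnion₂.1 hx
    exact mem_iUnion₂.2 ⟨p, ⟨x, hxp, hxL⟩, hp⟩

variable {α : Type} {P R : (ℕ → α) → Prop} {X : Type u} [TopologicalSpace X]

/-- The part of the fibre of `z` in `D` is active. -/
def Act (f : X → Sp P R) (D : Set X) (z : ℕ → α) : Prop :=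
  ∀ v, IsOpen v → f ⁻¹' {Sp.e z} ∩ D ⊆ v → ∀ n, ∃ k ≥ n, Sp.q (rl z k) ∈ f '' v

lemma act_or {f : X → Sp P R} (hf : PseudoOpen f) {D D' : Set X} (h : ∀ x, x ∈ D ∨ x ∈ D')
    (z : ℕ → α) : Act f D z ∨ Act f D' z := by
  by_contra hc
  push Not at hc
  obtain ⟨h1, h2⟩ := hc
  unfold Act at h1 h2
  push Not at h1 h2
  obtain ⟨v, hv1, hv2, n, hv3⟩ := h1
  obtain ⟨w, hw1, hw2, m, hw3⟩ := h2
  have h3 : Sp.e z ∈ interior (f '' (v ∪ w)) := by
    apply hf _ _ (hv1.union hw1)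
    intro x hx
    rcases h x with hx' | hx'
    · exact Or.inl (hv2 ⟨hx, hx'⟩)
    · exact Or.inr (hw2 ⟨hx, hx'⟩)
  obtain ⟨l, hl⟩ := (isOpen_def _).1 isOpen_interior z h3
  have h4 := interior_subset (hl.1 (max l (max n m)) (le_max_left _ _))
  rw [image_union] at h4
  rcases h4 with h4 | h4
  · exact hv3 _ ((le_max_left n m).trans (le_max_right _ _)) h4
  · exact hw3 _ ((le_max_right n m).trans (le_max_right _ _)) h4

lemma count [ParacompactSpace X] {f : X → Sp P R} (hf : Continuous f)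
    (hL : ∀ y, IsLindelof (f ⁻¹' {y})) {D : Set X} (hD : IsClosed D) {S : Type}
    (ζ : S → ℕ → α)
    (hd : ∀ p ∈ D, ∃ W : Set (Sp P R), IsOpen W ∧ f p ∈ W ∧
      ∀ s s', Sp.e (ζ s) ∈ W → Sp.e (ζ s') ∈ W → s = s')
    (hA : ∀ s, Act f D (ζ s)) :
    ∃ k : S → ℕ, ∀ q : List α, {s | rl (ζ s) (k s) = q}.Countable := by
  obtain ⟨v, hv1, hv2, hv3⟩ := expand (fun s => f ⁻¹' {Sp.e (ζ s)} ∩ D) (by
    intro p
    by_cases hp : p ∈ D
    · obtain ⟨W, hW1, hW2, hW3⟩ := hd p hp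
      refine ⟨f ⁻¹' W, hW1.preimage hf, hW2, ?_⟩
      rintro s s' ⟨x, hx1, hx2, -⟩ ⟨x', hx1', hx2', -⟩
      have h1 : f x = Sp.e (ζ s) := hx2
      have h2 : f x' = Sp.e (ζ s') := hx2'
      apply hW3
      · rw [← h1]
        exact hx1
      · rw [← h2]
        exact hx1'
    · refine ⟨Dᶜ, hD.isOpen_compl, hp, ?_⟩
      rintro s s' ⟨x, hx1, -, hx2⟩ _
      exact absurd hx2 hx1)
  have hk : ∀ s, ∃ k, Sp.q (rl (ζ s) k) ∈ f '' v s := by
    intro s
    obtain ⟨k, -, hk⟩ := hA s (v s) (hv1 s) (hv2 s) 0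
    exact ⟨k, hk⟩
  choose k hk using hk
  refine ⟨k, fun q => (hv3 _ (hL (Sp.q q))).mono ?_⟩
  intro s hs
  have hs' : rl (ζ s) (k s) = q := hs
  obtain ⟨x, hx1, hx2⟩ := hk s
  rw [hs'] at hx2
  exact ⟨x, hx1, hx2⟩

/-- The complement of a set of sequences which agree in a function of the values. -/
lemma isOpen_line {β : Type} (g : α → β) (w : ℕ → β) :
    IsOpen ({x | ∀ z, x = Sp.e z → (fun n => g (z n)) ≠ w} : Set (Sp P R)) := by
  rw [isOpen_def]
  intro z hz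
  have hz' : (fun n => g (z n)) ≠ w := hz z rfl
  obtain ⟨n, hn⟩ := Function.ne_iff.1 hz'
  have h1 : ∀ s : List α, (Sp.q s : Sp P R) ∈
      ({x | ∀ z, x = Sp.e z → (fun n => g (z n)) ≠ w} : Set (Sp P R)) := by
    intro s z' h
    exact absurd h (by simp)
  have h2 : ∀ z' : ℕ → α, rl z' (n + 1) = rl z (n + 1) → (Sp.e z' : Sp P R) ∈
      ({x | ∀ z, x = Sp.e z → (fun n => g (z n)) ≠ w} : Set (Sp P R)) := by
    intro z' h z'' h'
    have h3 : z' = z'' := Sp.e.inj h'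
    subst h3
    intro h4
    apply hn
    rw [← h4]
    change g (z n) = g (z' n)
    rw [(rl_eq_iff _ _ _).1 h n (by omega)]
  exact ⟨n + 1, fun k _ => h1 _, fun _ => ⟨fun z' h _ => h2 z' h, fun s _ => h1 s⟩,
    fun _ _ => ⟨fun z' h _ => h2 z' h, fun s _ => h1 s⟩⟩

end Pool.Agent.K7.H98.PO
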