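import Pool.Agent.K7.H98.PO.Thin

set_option autoImplicit false

/-!
# The space

The points are the finite and the infinite sequences over `α`. The finite sequences are isolated.
For predicates `P`, `R` on the infinite sequences let `A` be the set of all `z` without `P`, let
`B` be the set of all `z` with `P` and without `R`, and `Z` the set of all `z` with `P` and `R`. The
points of `Z` have the tails of the set of their initial segments as neighbourhoods, a point of `A`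
has as neighbourhoods all finite sequences and all points of `A ∪ Z` which extend one of its
initial segments, and similarly for the points of `B`.
-/

namespace Pool.Agent.K7.H98.PO

open Set Topology

/-- A space is metacompact if every open cover has a point-finite open refinement. -/
def Metacompact (Y : Type) [TopologicalSpace Y] : Prop :=
  ∀ U : Set (Set Y), (∀ u ∈ U, IsOpen u) → ⋃₀ U = Set.univ →
    ∃ V : Set (Set Y), (∀ v ∈ V, IsOpen v ∧ ∃ u ∈ U, v ⊆ u) ∧ ⋃₀ V = Set.univ ∧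
      ∀ y : Y, {v | v ∈ V ∧ y ∈ v}.Finite

/-- The points of the space. -/
inductive Sp {α : Type} (P R : (ℕ → α) → Prop) : Type
  | q (s : List α)
  | e (z : ℕ → α)

variable {α : Type} {P R : (ℕ → α) → Prop}

/-- The set `U` is a neighbourhood of the sequence `z` of size `n`. -/
def Nb (U : Set (Sp P R)) (z : ℕ → α) (n : ℕ) : Prop :=
  (∀ k ≥ n, Sp.q (rl z k) ∈ U) ∧
  (¬ P z → (∀ z', rl z' n = rl z n → (¬ P z' ∨ R z') → Sp.e z' ∈ U) ∧
    ∀ s, rl z n <:+ s → Sp.q s ∈ U) ∧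
  (P z → ¬ R z → (∀ z', rl z' n = rl z n → P z' → Sp.e z' ∈ U) ∧
    ∀ s, rl z n <:+ s → Sp.q s ∈ U)

lemma rl_eq_of_le {z z' : ℕ → α} {n m : ℕ} (h : n ≤ m) (h' : rl z' m = rl z m) :
    rl z' n = rl z n := by
  rw [rl_eq_iff] at h' ⊢
  exact fun j hj => h' j (by omega)

lemma Nb.mono {U V : Set (Sp P R)} {z : ℕ → α} {n m : ℕ} (hU : Nb U z n) (h : n ≤ m)
    (hUV : U ⊆ V) : Nb V z m := by
  refine ⟨fun k hk => hUV (hU.1 k (h.trans hk)), fun hP => ⟨fun z' h1 h2 => hUV ?_,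
    fun s hs => hUV ?_⟩, fun hP hR => ⟨fun z' h1 h2 => hUV ?_, fun s hs => hUV ?_⟩⟩
  · exact (hU.2.1 hP).1 z' (rl_eq_of_le h h1) h2
  · exact (hU.2.1 hP).2 s ((rl_suffix z h).trans hs)
  · exact (hU.2.2 hP hR).1 z' (rl_eq_of_le h h1) h2
  · exact (hU.2.2 hP hR).2 s ((rl_suffix z h).trans hs)

instance : TopologicalSpace (Sp P R) where
  IsOpen U := ∀ z, Sp.e z ∈ U → ∃ n, Nb U z n
  isOpen_univ := fun z _ => ⟨0, fun _ _ => trivial, fun _ => ⟨fun _ _ _ => trivial,
    fun _ _ => trivial⟩, fun _ _ => ⟨fun _ _ _ => trivial, fun _ _ => trivial⟩⟩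
  isOpen_inter := by
    intro U V hU hV z hz
    obtain ⟨n, hn⟩ := hU z hz.1
    obtain ⟨m, hm⟩ := hV z hz.2
    have h1 := hn.mono (le_max_left n m) (Subset.refl U)
    have h2 := hm.mono (le_max_right n m) (Subset.refl V)
    refine ⟨max n m, fun k hk => ⟨h1.1 k hk, h2.1 k hk⟩, fun hP => ⟨fun z' h3 h4 => ⟨?_, ?_⟩,
      fun s hs => ⟨?_, ?_⟩⟩, fun hP hR => ⟨fun z' h3 h4 => ⟨?_, ?_⟩, fun s hs => ⟨?_, ?_⟩⟩⟩
    · exact (h1.2.1 hP).1 z' h3 h4
    · exact (h2.2.1 hP).1 z' h3 h4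
    · exact (h1.2.1 hP).2 s hs
    · exact (h2.2.1 hP).2 s hs
    · exact (h1.2.2 hP hR).1 z' h3 h4
    · exact (h2.2.2 hP hR).1 z' h3 h4
    · exact (h1.2.2 hP hR).2 s hs
    · exact (h2.2.2 hP hR).2 s hs
  isOpen_sUnion := by
    intro S hS z hz
    obtain ⟨U, hU, hzU⟩ := hz
    obtain ⟨n, hn⟩ := hS U hU z hzU
    exact ⟨n, hn.mono le_rfl (subset_sUnion_of_mem hU)⟩

lemma isOpen_def (U : Set (Sp P R)) : IsOpen U ↔ ∀ z, Sp.e z ∈ U → ∃ n, Nb U z n := Iff.rfl

/-- All points extending `t`. -/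
def CC (t : List α) : Set (Sp P R) := {x | match x with
  | .q s => t <:+ s
  | .e z => rl z t.length = t}

/-- All points extending `t` outside `B`. -/
def NA (t : List α) : Set (Sp P R) := {x | match x with
  | .q s => t <:+ s
  | .e z => rl z t.length = t ∧ (¬ P z ∨ R z)}

/-- All points extending `t` outside `A`. -/
def NB (t : List α) : Set (Sp P R) := {x | match x with
  | .q s => t <:+ s
  | .e z => rl z t.length = t ∧ P z}

/-- A point with a tail of its initial segments. -/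
def LL (z : ℕ → α) (m : ℕ) : Set (Sp P R) := {x | match x with
  | .q s => ∃ k ≥ m, s = rl z k
  | .e z' => z' = z}

lemma rl_len {z z' : ℕ → α} {t : List α} (h : rl z t.length = t)
    (h' : rl z' t.length = rl z t.length) : rl z' t.length = t := h'.trans h

lemma isOpen_q (s : List α) : IsOpen ({Sp.q s} : Set (Sp P R)) := by
  rw [isOpen_def]
  intro z hz
  exact absurd hz (by simp)

lemma isOpen_CC (t : List α) : IsOpen (CC t : Set (Sp P R)) := by
  rw [isOpen_def]
  intro z hz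
  have hz' : rl z t.length = t := hz
  have h2 : ∀ s, rl z t.length <:+ s → Sp.q s ∈ (CC t : Set (Sp P R)) := fun s hs => by
    rw [hz'] at hs
    exact hs
  exact ⟨t.length, fun k hk => h2 _ (rl_suffix z hk), fun _ => ⟨fun z' h _ => rl_len hz' h, h2⟩,
    fun _ _ => ⟨fun z' h _ => rl_len hz' h, h2⟩⟩

lemma isOpen_NA (t : List α) : IsOpen (NA t : Set (Sp P R)) := by
  rw [isOpen_def]
  intro z hz
  have hz' : rl z t.length = t ∧ (¬ P z ∨ R z) := hz
  have h2 : ∀ s, rl z t.length <:+ s → Sp.q s ∈ (NA t : Set (Sp P R)) := fun s hs => by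
    rw [hz'.1] at hs
    exact hs
  refine ⟨t.length, fun k hk => h2 _ (rl_suffix z hk),
    fun _ => ⟨fun z' h h' => ⟨rl_len hz'.1 h, h'⟩, h2⟩, fun hP hR => ?_⟩
  rcases hz'.2 with h | h
  · exact absurd hP h
  · exact absurd h hR

lemma isOpen_NB (t : List α) : IsOpen (NB t : Set (Sp P R)) := by
  rw [isOpen_def]
  intro z hz
  have hz' : rl z t.length = t ∧ P z := hz
  have h2 : ∀ s, rl z t.length <:+ s → Sp.q s ∈ (NB t : Set (Sp P R)) := fun s hs => by
    rw [hz'.1] at hs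
    exact hs
  exact ⟨t.length, fun k hk => h2 _ (rl_suffix z hk), fun h => absurd hz'.2 h,
    fun _ _ => ⟨fun z' h h' => ⟨rl_len hz'.1 h, h'⟩, h2⟩⟩

lemma isOpen_LL {z : ℕ → α} (hP : P z) (hR : R z) (m : ℕ) : IsOpen (LL z m : Set (Sp P R)) := by
  rw [isOpen_def]
  intro z' hz'
  have h : z' = z := hz'
  subst h
  exact ⟨m, fun k hk => ⟨k, hk, rfl⟩, fun h => absurd hP h, fun _ h => absurd hR h⟩

lemma sep {x y : Sp P R} {t t' : List α} (hx : x ∈ (CC t : Set (Sp P R)))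
    (hy : y ∈ (CC t' : Set (Sp P R))) (h1 : ¬ t <:+ t') (h2 : ¬ t' <:+ t) :
    ∃ u v : Set (Sp P R), IsOpen u ∧ IsOpen v ∧ x ∈ u ∧ y ∈ v ∧ Disjoint u v := by
  refine ⟨CC t, CC t', isOpen_CC t, isOpen_CC t', hx, hy, ?_⟩
  rw [Set.disjoint_left]
  rintro (s | z) hu hv
  · rcases suf_comp (show t <:+ s from hu) (show t' <:+ s from hv) with h | h
    · exact h1 h
    · exact h2 h
  · have hu' : rl z t.length = t := hu
    have hv' : rl z t'.length = t' := hv
    rcases le_total t.length t'.length with h | h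
    · apply h1
      have h3 := rl_suffix z h
      rwa [hu', hv'] at h3
    · apply h2
      have h3 := rl_suffix z h
      rwa [hu', hv'] at h3

instance : T2Space (Sp P R) := by
  have hqe : ∀ (s : List α) (z : ℕ → α), ∃ u v : Set (Sp P R), IsOpen u ∧ IsOpen v ∧
      Sp.q s ∈ u ∧ Sp.e z ∈ v ∧ Disjoint u v := by
    intro s z
    refine ⟨{Sp.q s}, CC (rl z (s.length + 1)), isOpen_q s, isOpen_CC _, rfl, ?_, ?_⟩
    · change rl z (rl z (s.length + 1)).length = rl z (s.length + 1)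
      rw [rl_length]
    · rw [Set.disjoint_singleton_left]
      intro h
      have h1 : rl z (s.length + 1) <:+ s := h
      have h2 := h1.length_le
      rw [rl_length] at h2
      omega
  constructor
  rintro (s | z) (s' | z') hne
  · refine ⟨{Sp.q s}, {Sp.q s'}, isOpen_q s, isOpen_q s', rfl, rfl, ?_⟩
    rw [Set.disjoint_singleton]
    exact hne
  · exact hqe s z'
  · obtain ⟨u, v, h1, h2, h3, h4, h5⟩ := hqe s' z
    exact ⟨v, u, h2, h1, h4, h3, h5.symm⟩
  · have hne' : z ≠ z' := fun h => hne (by rw [h])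
    obtain ⟨k, hk⟩ := Function.ne_iff.1 hne'
    have hk' : rl z (k + 1) ≠ rl z' (k + 1) := fun h => hk ((rl_eq_iff _ _ _).1 h k (by omega))
    have hx : Sp.e z ∈ (CC (rl z (k + 1)) : Set (Sp P R)) := by
      change rl z (rl z (k + 1)).length = rl z (k + 1)
      rw [rl_length]
    have hy : Sp.e z' ∈ (CC (rl z' (k + 1)) : Set (Sp P R)) := by
      change rl z' (rl z' (k + 1)).length = rl z' (k + 1)
      rw [rl_length]
    exact sep hx hy (fun h => hk' (h.eq_of_length (by simp)))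
      (fun h => hk' (h.eq_of_length (by simp)).symm)

/-- The minimal elements of a set of finite sequences. -/
def Mn (T : Set (List α)) : Set (List α) := {t | t ∈ T ∧ ∀ s ∈ T, s <:+ t → s = t}

lemma exists_Mn {T : Set (List α)} {z : ℕ → α} (h : ∃ k, rl z k ∈ T) : ∃ k, rl z k ∈ Mn T := by
  classical
  refine ⟨Nat.find h, Nat.find_spec h, fun s hs hsz => ?_⟩
  obtain ⟨h1, h2⟩ := (suffix_rl_iff _ _ _).1 hsz
  have h3 : Nat.find h ≤ s.length := Nat.find_min' h (by rw [h2]; exact hs)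
  have h4 : s.length = Nat.find h := le_antisymm h1 h3
  rw [← h4, h2]

lemma Mn_unique {T : Set (List α)} {t t' : List α} (h : t ∈ Mn T) (h' : t' ∈ Mn T)
    (hc : t <:+ t' ∨ t' <:+ t) : t = t' := by
  rcases hc with hc | hc
  · exact h'.2 t h.1 hc
  · exact (h.2 t' h'.1 hc).symm

lemma comp_of_mem {t t' : List α} {y : Sp P R} (h : y ∈ (CC t : Set (Sp P R)))
    (h' : y ∈ (CC t' : Set (Sp P R))) : t <:+ t' ∨ t' <:+ t := by
  rcases y with s | z
  · exact suf_comp (show t <:+ s from h) (show t' <:+ s from h')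
  · have hu' : rl z t.length = t := h
    have hv' : rl z t'.length = t' := h'
    rcases le_total t.length t'.length with h | h
    · left
      have h3 := rl_suffix z h
      rwa [hu', hv'] at h3
    · right
      have h3 := rl_suffix z h
      rwa [hu', hv'] at h3

lemma NA_sub_CC (t : List α) : (NA t : Set (Sp P R)) ⊆ CC t := by
  rintro (s | z) h
  · exact h
  · exact h.1

lemma NB_sub_CC (t : List α) : (NB t : Set (Sp P R)) ⊆ CC t := by
  rintro (s | z) h
  · exact h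
  · exact h.1

/-- The space is metacompact if the closed subsets of `Z` are thin. -/
theorem metacompact (hthin : ∀ F : Set (ℕ → α), Clo F → (∀ z ∈ F, P z ∧ R z) → Thin F) :
    Metacompact (Sp P R) := by
  classical
  intro U hUo hUc
  have hcov : ∀ x : Sp P R, ∃ u ∈ U, x ∈ u := by
    intro x
    have : x ∈ ⋃₀ U := by
      rw [hUc]
      exact mem_univ x
    exact this
  let TA : Set (List α) := {t | ∃ u ∈ U, (NA t : Set (Sp P R)) ⊆ u}
  let TB : Set (List α) := {t | ∃ u ∈ U, (NB t : Set (Sp P R)) ⊆ u}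
  have hA : ∀ z, ¬ P z → ∃ k, rl z k ∈ TA := by
    intro z hz
    obtain ⟨u, hu, hzu⟩ := hcov (Sp.e z)
    obtain ⟨n, hn⟩ := hUo u hu z hzu
    refine ⟨n, u, hu, ?_⟩
    rintro (s | z') h
    · exact (hn.2.1 hz).2 s h
    · have h' : rl z' (rl z n).length = rl z n ∧ (¬ P z' ∨ R z') := h
      rw [rl_length] at h'
      exact (hn.2.1 hz).1 z' h'.1 h'.2
  have hB : ∀ z, P z → ¬ R z → ∃ k, rl z k ∈ TB := by
    intro z hz hz2
    obtain ⟨u, hu, hzu⟩ := hcov (Sp.e z)
    obtain ⟨n, hn⟩ := hUo u hu z hzu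
    refine ⟨n, u, hu, ?_⟩
    rintro (s | z') h
    · exact (hn.2.2 hz hz2).2 s h
    · have h' : rl z' (rl z n).length = rl z n ∧ P z' := h
      rw [rl_length] at h'
      exact (hn.2.2 hz hz2).1 z' h'.1 h'.2
  let F : Set (ℕ → α) := {z | (P z ∧ R z) ∧ (∀ k, rl z k ∉ TA) ∧ ∀ k, rl z k ∉ TB}
  have hF : Clo F := by
    intro z hz
    have h1 : ∀ k, rl z k ∉ TA := by
      intro k
      obtain ⟨z', h1, h2⟩ := hz k
      rw [← h2]
      exact h1.2.1 k
    have h2 : ∀ k, rl z k ∉ TB := by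
      intro k
      obtain ⟨z', h1, h2⟩ := hz k
      rw [← h2]
      exact h1.2.2 k
    have hP : P z := by
      by_contra hc
      obtain ⟨k, hk⟩ := hA z hc
      exact h1 k hk
    have hR : R z := by
      by_contra hc
      obtain ⟨k, hk⟩ := hB z hP hc
      exact h2 k hk
    exact ⟨⟨hP, hR⟩, h1, h2⟩
  obtain ⟨n, hn⟩ := hthin F hF fun z hz => hz.1
  have hm : ∀ z : ℕ → α, ∃ m : ℕ, ∃ u ∈ U, Sp.e z ∈ u ∧ ∀ k ≥ m, Sp.q (rl z k) ∈ u := by
    intro z
    obtain ⟨u, hu, hzu⟩ := hcov (Sp.e z)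
    obtain ⟨m, hm⟩ := hUo u hu z hzu
    exact ⟨m, u, hu, hzu, hm.1⟩
  choose m u0 hu0 hzu0 hm using hm
  let M : (ℕ → α) → ℕ := fun z => max (n z) (m z)
  let V : Set (Set (Sp P R)) := ((NA '' Mn TA ∪ NB '' Mn TB) ∪ (fun z => LL z (M z)) '' F) ∪
    Set.range fun s : List α => ({Sp.q s} : Set (Sp P R))
  refine ⟨V, ?_, ?_, ?_⟩
  · rintro v (((⟨t, ht, rfl⟩ | ⟨t, ht, rfl⟩) | ⟨z, hz, rfl⟩) | ⟨s, rfl⟩)
    · exact ⟨isOpen_NA t, ht.1⟩
    · exact ⟨isOpen_NB t, ht.1⟩
    · refine ⟨isOpen_LL hz.1.1 hz.1.2 _, u0 z, hu0 z, ?_⟩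
      rintro (s | z') h
      · obtain ⟨k, hk, rfl⟩ := h
        exact hm z k ((le_max_right _ _).trans hk)
      · have : z' = z := h
        rw [this]
        exact hzu0 z
    · obtain ⟨u, hu, hs⟩ := hcov (Sp.q s)
      exact ⟨isOpen_q s, u, hu, by simpa using hs⟩
  · rw [eq_univ_iff_forall]
    rintro (s | z)
    · exact ⟨{Sp.q s}, Or.inr ⟨s, rfl⟩, rfl⟩
    · have hNA : (∃ k, rl z k ∈ TA) → (¬ P z ∨ R z) → Sp.e z ∈ ⋃₀ V := by
        intro h h'
        obtain ⟨k, hk⟩ := exists_Mn h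
        refine ⟨NA (rl z k), Or.inl (Or.inl (Or.inl ⟨_, hk, rfl⟩)), ?_, h'⟩
        rw [rl_length]
      have hNB : (∃ k, rl z k ∈ TB) → P z → Sp.e z ∈ ⋃₀ V := by
        intro h h'
        obtain ⟨k, hk⟩ := exists_Mn h
        refine ⟨NB (rl z k), Or.inl (Or.inl (Or.inr ⟨_, hk, rfl⟩)), ?_, h'⟩
        rw [rl_length]
      by_cases hP : P z
      · by_cases hR : R z
        · by_cases h1 : ∃ k, rl z k ∈ TA
          · exact hNA h1 (Or.inr hR)
          · by_cases h2 : ∃ k, rl z k ∈ TB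
            · exact hNB h2 hP
            · push Not at h1 h2
              exact ⟨LL z (M z), Or.inl (Or.inr ⟨z, ⟨⟨hP, hR⟩, h1, h2⟩, rfl⟩), rfl⟩
        · exact hNB (hB z hP hR) hP
      · exact hNA (hA z hP) (Or.inl hP)
  · intro y
    have h1 : {t | t ∈ Mn TA ∧ y ∈ (NA t : Set (Sp P R))}.Finite := by
      apply Set.Subsingleton.finite
      rintro t ⟨ht, hy⟩ t' ⟨ht', hy'⟩
      exact Mn_unique ht ht' (comp_of_mem (NA_sub_CC t hy) (NA_sub_CC t' hy'))
    have h2 : {t | t ∈ Mn TB ∧ y ∈ (NB t : Set (Sp P R))}.Finite := by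
      apply Set.Subsingleton.finite
      rintro t ⟨ht, hy⟩ t' ⟨ht', hy'⟩
      exact Mn_unique ht ht' (comp_of_mem (NB_sub_CC t hy) (NB_sub_CC t' hy'))
    have h3 : {z | z ∈ F ∧ y ∈ (LL z (M z) : Set (Sp P R))}.Finite := by
      rcases y with s | z'
      · apply (hn s).subset
        rintro z ⟨hz, k, hk, rfl⟩
        refine ⟨hz, by rw [rl_length], ?_⟩
        rw [rl_length]
        exact (le_max_left _ _).trans hk
      · apply Set.Subsingleton.finite
        rintro z ⟨-, hz⟩ z'' ⟨-, hz''⟩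
        have ha : z' = z := hz
        have hb : z' = z'' := hz''
        rw [← ha, hb]
    have h4 : {s : List α | y ∈ ({Sp.q s} : Set (Sp P R))}.Finite := by
      apply Set.Subsingleton.finite
      intro s hs s' hs'
      have ha : y = Sp.q s := hs
      have hb : y = Sp.q s' := hs'
      rw [ha] at hb
      exact Sp.q.inj hb
    apply ((((h1.image NA).union (h2.image NB)).union (h3.image fun z => LL z (M z))).union
      (h4.image fun s => ({Sp.q s} : Set (Sp P R)))).subset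
    rintro v ⟨(((⟨t, ht, rfl⟩ | ⟨t, ht, rfl⟩) | ⟨z, hz, rfl⟩) | ⟨s, rfl⟩), hy⟩
    · exact Or.inl (Or.inl (Or.inl ⟨t, ⟨ht, hy⟩, rfl⟩))
    · exact Or.inl (Or.inl (Or.inr ⟨t, ⟨ht, hy⟩, rfl⟩))
    · exact Or.inl (Or.inr ⟨z, ⟨hz, hy⟩, rfl⟩)
    · exact Or.inr ⟨s, hy, rfl⟩

end Pool.Agent.K7.H98.PO
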