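import Mathlib

set_option autoImplicit false

/-!
# Closed sets with an `F_σ` well-order are thin

A set `F` of sequences is thin if one can choose a tail of the set of initial segments of every
element of `F` such that every finite sequence belongs to finitely many of the chosen tails. If a
closed set `F` has a well-order which is a countable union of closed relations, then `F` is thin.
-/

namespace Pool.Agent.K7.H98.PO

open Set Topology

variable {α : Type}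

/-- The reversed list of the first `k` values of `z`. -/
def rl (z : ℕ → α) : ℕ → List α
  | 0 => []
  | k + 1 => z k :: rl z k

@[simp] lemma rl_length (z : ℕ → α) (k : ℕ) : (rl z k).length = k := by
  induction k with
  | zero => rfl
  | succ k ih => simp [rl, ih]

lemma rl_eq_iff (z z' : ℕ → α) (k : ℕ) : rl z k = rl z' k ↔ ∀ j < k, z j = z' j := by
  induction k with
  | zero => simp [rl]
  | succ k ih =>
    rw [show rl z (k + 1) = z k :: rl z k from rfl, show rl z' (k + 1) = z' k :: rl z' k from rfl,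
      List.cons.injEq, ih]
    constructor
    · rintro ⟨h1, h2⟩ j hj
      rcases Nat.lt_or_ge j k with h | h
      · exact h2 j h
      · have : j = k := by omega
        rw [this]
        exact h1
    · intro h
      exact ⟨h k (by omega), fun j hj => h j (by omega)⟩

lemma rl_suffix (z : ℕ → α) {j k : ℕ} (h : j ≤ k) : rl z j <:+ rl z k := by
  induction k with
  | zero =>
    have : j = 0 := by omega
    rw [this]
  | succ k ih =>
    rcases Nat.lt_or_ge j (k + 1) with h1 | h1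
    · exact (ih (by omega)).trans (List.suffix_cons _ _)
    · have : j = k + 1 := by omega
      rw [this]

lemma suffix_rl_iff (z : ℕ → α) (k : ℕ) (t : List α) :
    t <:+ rl z k ↔ t.length ≤ k ∧ rl z t.length = t := by
  constructor
  · intro h
    have h1 : t.length ≤ k := by
      have := h.length_le
      rwa [rl_length] at this
    refine ⟨h1, ?_⟩
    have h2 := rl_suffix z h1
    exact (List.suffix_of_suffix_length_le h2 h (by simp)).eq_of_length (by simp)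
  · rintro ⟨h1, h2⟩
    rw [← h2]
    exact rl_suffix z h1

/-- two suffixes of a list are comparable -/
lemma suf_comp {s t u : List α} (hs : s <:+ u) (ht : t <:+ u) : s <:+ t ∨ t <:+ s := by
  rcases le_total s.length t.length with h | h
  · exact Or.inl (List.suffix_of_suffix_length_le hs ht h)
  · exact Or.inr (List.suffix_of_suffix_length_le ht hs h)

/-- The sequences with the initial segment `t`. -/
def Cyl (t : List α) : Set (ℕ → α) := {z | rl z t.length = t}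

lemma mem_Cyl (t : List α) (z : ℕ → α) : z ∈ Cyl t ↔ rl z t.length = t := Iff.rfl

lemma mem_Cyl_rl (z z' : ℕ → α) (k : ℕ) : z' ∈ Cyl (rl z k) ↔ rl z' k = rl z k := by
  rw [mem_Cyl, rl_length]

lemma Cyl_anti {s t : List α} (h : s <:+ t) : Cyl t ⊆ Cyl s := by
  intro z hz
  rw [mem_Cyl] at hz
  have h1 : s <:+ rl z t.length := by rw [hz]; exact h
  exact ((suffix_rl_iff _ _ _).1 h1).2

/-- Thin sets of sequences. -/
def Thin (F : Set (ℕ → α)) : Prop :=
  ∃ n : (ℕ → α) → ℕ, ∀ q : List α, {z | z ∈ F ∧ rl z q.length = q ∧ n z ≤ q.length}.Finite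

lemma Thin.mono {F G : Set (ℕ → α)} (h : G ⊆ F) (hF : Thin F) : Thin G := by
  obtain ⟨n, hn⟩ := hF
  exact ⟨n, fun q => (hn q).subset fun z hz => ⟨h hz.1, hz.2⟩⟩

/-- The kernel of `F`. -/
def Ker (F : Set (ℕ → α)) : Set (ℕ → α) := {z | z ∈ F ∧ ∀ k, ¬ Thin (F ∩ Cyl (rl z k))}

lemma ker_two (F : Set (ℕ → α)) (t : List α) (ht : ¬ Thin (F ∩ Cyl t)) (z0 : ℕ → α) :
    ∃ z ∈ Ker F ∩ Cyl t, z ≠ z0 := by
  classical
  by_contra hcon
  push Not at hcon
  apply ht
  have hk : ∀ z : ℕ → α, z ∈ F → z ∉ Ker F → ∃ k, Thin (F ∩ Cyl (rl z k)) := by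
    intro z hz hz'
    by_contra h
    push Not at h
    exact hz' ⟨hz, h⟩
  let N : List α → (ℕ → α) → ℕ := fun s => if h : Thin (F ∩ Cyl s) then Classical.choose h
    else fun _ => 0
  have hN : ∀ s, Thin (F ∩ Cyl s) → ∀ q : List α,
      {z | z ∈ F ∩ Cyl s ∧ rl z q.length = q ∧ N s z ≤ q.length}.Finite := by
    intro s hs
    have : N s = Classical.choose hs := dif_pos hs
    rw [this]
    exact Classical.choose_spec hs
  let k0 : (ℕ → α) → ℕ := fun z =>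
    if h : ∃ k, Thin (F ∩ Cyl (rl z k)) then Nat.find h else 0
  have hk0 : ∀ z, z ∈ F → z ∉ Ker F → Thin (F ∩ Cyl (rl z (k0 z))) := by
    intro z hz hz'
    have h := hk z hz hz'
    have h1 : k0 z = Nat.find h := dif_pos h
    rw [h1]
    exact Nat.find_spec h
  refine ⟨fun z => max (N (rl z (k0 z)) z) (k0 z), fun q => ?_⟩
  have hfin : ({z0} ∪ ⋃ s ∈ {s | s ∈ q.tails ∧ Thin (F ∩ Cyl s)},
      {z | z ∈ F ∩ Cyl s ∧ rl z q.length = q ∧ N s z ≤ q.length}).Finite := by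
    apply (finite_singleton z0).union
    apply Set.Finite.biUnion
    · exact (List.finite_toSet q.tails).subset fun s hs => hs.1
    · intro s hs
      exact hN s hs.2 q
  apply hfin.subset
  rintro z ⟨⟨hzF, hzt⟩, hq, hn⟩
  by_cases hz : z ∈ Ker F
  · exact Or.inl (hcon z ⟨hz, hzt⟩)
  · right
    have h1 := hk0 z hzF hz
    have h2 : N (rl z (k0 z)) z ≤ q.length := (le_max_left _ _).trans hn
    have h3 : k0 z ≤ q.length := (le_max_right _ _).trans hn
    rw [mem_iUnion₂]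
    refine ⟨rl z (k0 z), ⟨?_, h1⟩, ⟨hzF, (mem_Cyl_rl _ _ _).2 rfl⟩, hq, h2⟩
    rw [List.mem_tails, ← hq]
    exact rl_suffix z h3

/-- Combinatorial form of closed sets of sequences. -/
def Clo (F : Set (ℕ → α)) : Prop := ∀ z, (∀ k, ∃ z' ∈ F, rl z' k = rl z k) → z ∈ F

lemma Clo.ker {F : Set (ℕ → α)} (hF : Clo F) : Clo (Ker F) := by
  intro z hz
  refine ⟨hF z fun k => ?_, fun k => ?_⟩
  · obtain ⟨z', h1, h2⟩ := hz k
    exact ⟨z', h1.1, h2⟩
  · obtain ⟨z', h1, h2⟩ := hz k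
    rw [← h2]
    exact h1.2 k

section Top

variable [TopologicalSpace α] [DiscreteTopology α]

lemma isOpen_rl (k : ℕ) (t : List α) : IsOpen {z : ℕ → α | rl z k = t} := by
  induction k generalizing t with
  | zero =>
    by_cases h : [] = t
    · simp [rl, h]
    · simp [rl, h]
  | succ k ih =>
    cases t with
    | nil => simp [rl]
    | cons a t =>
      have : {z : ℕ → α | rl z (k + 1) = a :: t} = (fun z : ℕ → α => z k) ⁻¹' {a} ∩
          {z : ℕ → α | rl z k = t} := by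
        ext z
        simp [rl]
      rw [this]
      exact ((isOpen_discrete {a}).preimage (continuous_apply k)).inter (ih t)

lemma isOpen_Cyl (t : List α) : IsOpen (Cyl t) := isOpen_rl _ _

lemma isClosed_Cyl (t : List α) : IsClosed (Cyl t) := by
  rw [← isOpen_compl_iff]
  have : (Cyl t)ᶜ = ⋃ s ∈ {s : List α | s ≠ t}, {z : ℕ → α | rl z t.length = s} := by
    ext z
    simp [Cyl]
  rw [this]
  exact isOpen_biUnion fun s _ => isOpen_rl _ _

omit [DiscreteTopology α] in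
lemma exists_Cyl_subset {U : Set (ℕ → α)} (hU : IsOpen U) {z : ℕ → α} (hz : z ∈ U) :
    ∃ k, ∀ j ≥ k, Cyl (rl z j) ⊆ U := by
  obtain ⟨I, u, h1, h2⟩ := isOpen_pi_iff.1 hU z hz
  refine ⟨I.sup id + 1, fun j hj z' hz' => h2 fun i hi => ?_⟩
  rw [mem_Cyl_rl, rl_eq_iff] at hz'
  have h3 : i ≤ I.sup id := Finset.le_sup (f := id) hi
  rw [hz' i (by omega)]
  exact (h1 i hi).2

lemma Clo.isClosed {F : Set (ℕ → α)} (hF : Clo F) : IsClosed F := by
  rw [← isOpen_compl_iff, isOpen_iff_mem_nhds]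
  intro z hz
  by_contra hcon
  apply hz
  apply hF
  intro k
  by_contra h
  push Not at h
  apply hcon
  refine Filter.mem_of_superset ((isOpen_Cyl (rl z k)).mem_nhds ((mem_Cyl_rl _ _ _).2 rfl)) ?_
  intro z' hz' hz'F
  exact h z' hz'F ((mem_Cyl_rl _ _ _).1 hz')

lemma step {F : Set (ℕ → α)} (hF : Clo F) {W : Type} [LinearOrder W] (r : (ℕ → α) → W)
    (hr : InjOn r F) (C : ℕ → Set ((ℕ → α) × (ℕ → α))) (hC : ∀ m, IsClosed (C m))
    (hC1 : ∀ a ∈ F, ∀ b ∈ F, r a < r b → ∃ m, (a, b) ∈ C m)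
    (hC2 : ∀ a ∈ F, ∀ b ∈ F, ∀ m, (a, b) ∈ C m → r a < r b)
    (t : List α) (ht : (Ker F ∩ Cyl t).Nonempty) :
    ∃ u v : List α, t <:+ u ∧ t <:+ v ∧ (Ker F ∩ Cyl u).Nonempty ∧ (Ker F ∩ Cyl v).Nonempty ∧
      ∀ a ∈ Ker F ∩ Cyl u, ∀ b ∈ Ker F ∩ Cyl v, r a < r b := by
  have hS : IsClosed (Ker F ∩ Cyl t) := hF.ker.isClosed.inter (isClosed_Cyl t)
  have hcm : TopologicalSpace.IsCompletelyMetrizableSpace (Ker F ∩ Cyl t : Set (ℕ → α)) :=
    hS.isCompletelyMetrizableSpace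
  have hne : Nonempty (Ker F ∩ Cyl t : Set (ℕ → α)) := ht.to_subtype
  let T := (Ker F ∩ Cyl t : Set (ℕ → α))
  let f : (ℕ ⊕ ℕ) ⊕ Unit → Set (T × T) := fun i => match i with
    | .inl (.inl m) => {p | (p.1.1, p.2.1) ∈ C m}
    | .inl (.inr m) => {p | (p.2.1, p.1.1) ∈ C m}
    | .inr _ => {p | p.1 = p.2}
  have hfc : ∀ i, IsClosed (f i) := by
    rintro ((m | m) | _)
    · exact (hC m).preimage (by fun_prop)
    · exact (hC m).preimage (by fun_prop)
    · exact isClosed_eq continuous_fst continuous_snd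
  have hcov : ⋃ i, f i = univ := by
    rw [eq_univ_iff_forall]
    rintro ⟨a, b⟩
    rw [mem_iUnion]
    rcases lt_trichotomy (r a.1) (r b.1) with h | h | h
    · obtain ⟨m, hm⟩ := hC1 a.1 a.2.1.1 b.1 b.2.1.1 h
      exact ⟨.inl (.inl m), hm⟩
    · exact ⟨.inr (), Subtype.ext (hr a.2.1.1 b.2.1.1 h)⟩
    · obtain ⟨m, hm⟩ := hC1 b.1 b.2.1.1 a.1 a.2.1.1 h
      exact ⟨.inl (.inr m), hm⟩
  obtain ⟨i, ⟨⟨z, z'⟩, hzz⟩⟩ := nonempty_interior_of_iUnion_of_closed hfc hcov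
  obtain ⟨U, V, hU, hV, hzU, hzV, hUV⟩ := isOpen_prod_iff.1 isOpen_interior z z' hzz
  obtain ⟨U', hU', rfl⟩ := isOpen_induced_iff.1 hU
  obtain ⟨V', hV', rfl⟩ := isOpen_induced_iff.1 hV
  obtain ⟨k1, hk1⟩ := exists_Cyl_subset hU' hzU
  obtain ⟨k2, hk2⟩ := exists_Cyl_subset hV' hzV
  let k := max (max k1 k2) t.length
  have hku : t <:+ rl z.1 k := by
    rw [suffix_rl_iff]
    exact ⟨le_max_right _ _, z.2.2⟩
  have hkv : t <:+ rl z'.1 k := by
    rw [suffix_rl_iff]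
    exact ⟨le_max_right _ _, z'.2.2⟩
  have hz : z.1 ∈ Ker F ∩ Cyl (rl z.1 k) := ⟨z.2.1, (mem_Cyl_rl _ _ _).2 rfl⟩
  have hz' : z'.1 ∈ Ker F ∩ Cyl (rl z'.1 k) := ⟨z'.2.1, (mem_Cyl_rl _ _ _).2 rfl⟩
  have hbox : ∀ a (ha : a ∈ Ker F ∩ Cyl (rl z.1 k)) b (hb : b ∈ Ker F ∩ Cyl (rl z'.1 k)),
      ((⟨a, ha.1, Cyl_anti hku ha.2⟩, ⟨b, hb.1, Cyl_anti hkv hb.2⟩) : T × T) ∈ f i := by
    intro a ha b hb
    apply interior_subset
    apply hUV
    exact ⟨hk1 k ((le_max_left _ _).trans (le_max_left _ _)) ha.2,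
      hk2 k ((le_max_right _ _).trans (le_max_left _ _)) hb.2⟩
  rcases i with ((m | m) | _)
  · refine ⟨rl z.1 k, rl z'.1 k, hku, hkv, ⟨_, hz⟩, ⟨_, hz'⟩, fun a ha b hb => ?_⟩
    exact hC2 a ha.1.1 b hb.1.1 m (hbox a ha b hb)
  · refine ⟨rl z'.1 k, rl z.1 k, hkv, hku, ⟨_, hz'⟩, ⟨_, hz⟩, fun a ha b hb => ?_⟩
    exact hC2 a ha.1.1 b hb.1.1 m (hbox b hb a ha)
  · exfalso
    have hzz' : z.1 = z'.1 := by
      have := hbox z.1 hz z'.1 hz'
      exact congrArg Subtype.val this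
    obtain ⟨b, hb, hbne⟩ := ker_two F (rl z'.1 k) (z'.2.1.2 k) z'.1
    have h1 := hbox z.1 hz b hb
    have h2 : z.1 = b := congrArg Subtype.val h1
    exact hbne (h2.symm.trans hzz')

end Top

theorem thin_of_rank {F : Set (ℕ → α)} (hF : Clo F) {W : Type} [LinearOrder W]
    [WellFoundedLT W] (r : (ℕ → α) → W) (hr : InjOn r F)
    (C : ℕ → Set ((ℕ → α) × (ℕ → α)))
    (hC : ∀ (_ : TopologicalSpace α) (_ : DiscreteTopology α), ∀ m, IsClosed (C m))
    (hC1 : ∀ a ∈ F, ∀ b ∈ F, r a < r b → ∃ m, (a, b) ∈ C m)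
    (hC2 : ∀ a ∈ F, ∀ b ∈ F, ∀ m, (a, b) ∈ C m → r a < r b) : Thin F := by
  let _ : TopologicalSpace α := ⊥
  have _ : DiscreteTopology α := ⟨rfl⟩
  by_contra hthin
  have hstep := step hF r hr C (hC _ inferInstance) hC1 hC2
  let Q : (ℕ → α) → Prop := fun b => ∃ u v : List α, (Ker F ∩ Cyl u).Nonempty ∧
    b ∈ Ker F ∩ Cyl v ∧ ∀ a ∈ Ker F ∩ Cyl u, ∀ c ∈ Ker F ∩ Cyl v, r a < r c
  have hsub : F ⊆ F ∩ Cyl ([] : List α) := fun z hz => ⟨hz, rfl⟩
  have hnil : ¬ Thin (F ∩ Cyl ([] : List α)) := fun h => hthin (h.mono hsub)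
  have hne0 : Nonempty (ℕ → α) := by
    by_contra hc
    have hem : IsEmpty (ℕ → α) := not_nonempty_iff.1 hc
    exact hthin ⟨fun _ => 0, fun q => Set.toFinite _⟩
  have h0 : ∃ b, Q b := by
    obtain ⟨z, hz, -⟩ := ker_two F [] hnil hne0.some
    obtain ⟨u, v, -, -, h1, ⟨b, h2⟩, h3⟩ := hstep [] ⟨z, hz⟩
    exact ⟨b, u, v, h1, h2, h3⟩
  have hne : (r '' {b | Q b}).Nonempty := by
    obtain ⟨b, hb⟩ := h0
    exact ⟨r b, b, hb, rfl⟩
  obtain ⟨b, ⟨u, v, h1, h2, h3⟩, hb⟩ := (wellFounded_lt (α := W)).min_mem _ hne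
  obtain ⟨u', v', hu', hv', h1', ⟨b', h2'⟩, h3'⟩ := hstep u h1
  have hlt : r b' < r b := h3 b' ⟨h2'.1, Cyl_anti hv' h2'.2⟩ b h2
  apply (wellFounded_lt (α := W)).not_lt_min (r '' {b | Q b}) (x := r b')
    ⟨b', ⟨u', v', h1', h2', h3'⟩, rfl⟩
  rw [← hb]
  exact hlt

end Pool.Agent.K7.H98.PO
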